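import Mathlib
import Pool.Agent.Y310.SC.Cyl
import Pool.Agent.Y310.SC.Par

set_option autoImplicit false

namespace Pool.Agent.Results.MP_815c6c_an.ScalarCounterexample

open MeasureTheory Set Filter Topology
open scoped ContDiff
open Pool.Agent

/-- `ℝ^m` with the Euclidean norm. -/
abbrev RE (m : ℕ) := EuclideanSpace ℝ (Fin m)

/-- Real `n × d` matrices with the Frobenius norm. -/
abbrev Mat (n d : ℕ) := EuclideanSpace ℝ (Fin n × Fin d)

/-- `A(ξ) = |ξ|^(p-2) ξ`. -/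
noncomputable def Aop (p : ℝ) {n d : ℕ} (ξ : Mat n d) : Mat n d := ‖ξ‖ ^ (p - 2) • ξ

/-- `V(ξ) = |ξ|^((p-2)/2) ξ`. -/
noncomputable def Vop (p : ℝ) {n d : ℕ} (ξ : Mat n d) : Mat n d := ‖ξ‖ ^ ((p - 2) / 2) • ξ

/-- `h : Ω → ℝ^n` is `p`-harmonic on `Ω ⊆ ℝ^d` with weak gradient `G`: `h` and `G` are `L^p` on
compact subsets of `Ω`, `G` is the distributional gradient of `h` on `Ω`, and
`∫_Ω ⟨A(G), ∇φ⟩ = 0` for all test maps `φ ∈ C_c^∞(Ω; ℝ^n)`. -/
structure IsPHarmonic {d n : ℕ} (p : ℝ) (Ω : Set (RE d)) (h : RE d → RE n)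
    (G : RE d → Mat n d) : Prop where
  memLp_map : ∀ K : Set (RE d), IsCompact K → K ⊆ Ω →
    MemLp h (ENNReal.ofReal p) (volume.restrict K)
  memLp_grad : ∀ K : Set (RE d), IsCompact K → K ⊆ Ω →
    MemLp G (ENNReal.ofReal p) (volume.restrict K)
  weak_grad : ∀ φ : RE d → ℝ, ContDiff ℝ ∞ φ → HasCompactSupport φ → tsupport φ ⊆ Ω →
    ∀ (α : Fin n) (i : Fin d),
      ∫ x in Ω, h x α * fderiv ℝ φ x (EuclideanSpace.single i 1)
        = - ∫ x in Ω, G x (α, i) * φ x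
  weak_eq : ∀ φ : RE d → RE n, ContDiff ℝ ∞ φ → HasCompactSupport φ → tsupport φ ⊆ Ω →
    ∫ x in Ω, ∑ α : Fin n, ∑ i : Fin d,
      Aop p (G x) (α, i) * (fderiv ℝ φ x (EuclideanSpace.single i 1)) α = 0

/-- the mean oscillation `(⨍_S |f - ⟨f⟩_S|^2)^(1/2)`. -/
noncomputable def osc {d n : ℕ} (f : RE d → Mat n d) (S : Set (RE d)) : ℝ :=
  Real.sqrt (⨍ x in S, ‖f x - ⨍ y in S, f y‖ ^ 2)

/-- the subspace of `ℝ^d` where the first `m` coordinates vanish -/
def axis (d m : ℕ) : Set (RE d) := {z | ∀ i : Fin d, i.val < m → z i = 0}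

theorem memLp_of_continuous {d : ℕ} {F : Type*} [NormedAddCommGroup F]
    [SecondCountableTopologyEither (RE d) F] {f : RE d → F} (hf : Continuous f) {K : Set (RE d)}
    (hK : IsCompact K) (q : ENNReal) : MemLp f q (volume.restrict K) := by
  have hfin : IsFiniteMeasure (volume.restrict K) := ⟨by
    rw [Measure.restrict_apply_univ]; exact hK.measure_lt_top⟩
  obtain ⟨C, hC⟩ := hK.exists_bound_of_continuousOn hf.continuousOn
  refine MemLp.of_bound hf.aestronglyMeasurable C ?_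
  exact (ae_restrict_iff' hK.measurableSet).2 (Eventually.of_forall hC)

/-- The map is `p`-harmonic. -/
theorem isPHarmonic {N m n : ℕ} {p k2 : ℝ} (Pr : Y310.SC.Sol.Prof N (p - 1) k2) (hn : 0 < n) :
    IsPHarmonic p Set.univ (Y310.SC.Cyl.hc Pr m hn) (Y310.SC.Cyl.Gc Pr m hn) := by
  refine ⟨?_, ?_, ?_, ?_⟩
  · intro K hK _
    exact memLp_of_continuous (Y310.SC.Cyl.continuous_hc Pr hn) hK _
  · intro K hK _
    exact memLp_of_continuous (Y310.SC.Cyl.continuous_Gc Pr hn) hK _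
  · intro φ hφ hs _ α i
    simp only [Measure.restrict_univ]
    exact Y310.SC.Cyl.weak_grad Pr hn φ hφ hs α i
  · intro φ hφ hs _
    simp only [Measure.restrict_univ]
    exact Y310.SC.Cyl.weak_eq Pr hn rfl φ hφ hs

/-- **Scalar `p`-harmonic functions, `1 < p < 2`, for which `V(∇h)` is not `C^1`.**
Let `N ≥ 2`, `d ≥ 2N`, `n ≥ 1` and `1 < p < 2`; for `N = 2, 3` let in addition
`3 (p-1)^2 + (2N+1) (p-1) + 2N > 8`. There is a function `u : ℝ^d → ℝ`, positively homogeneous of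
some degree `β` with `2 + (2-p)/(N+1) ≤ β < 1 + 2/p`, and `β ≤ 2 + (2-p)/(N-3)` if `N ≥ 4`, such
that the map `h = (u, 0, ..., 0)` is `p`-harmonic on `ℝ^d` (for `n = 1`, `u` itself), `u` and the
gradient `G` are continuous, and with `γ = (β-1) p / 2`, `p/2 < γ < 1`: near every point `z` of
the `(d-2N)`-dimensional subspace `x_1 = ... = x_{2N} = 0` the map `V(∇h)` has no `C^1`
representative and no Hölder continuous representative with an exponent `α > γ`, and for every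
ball `B` centred at such a point the mean oscillation of `V(∇h)` over `θB` is exactly `θ^γ` times
the one over `B`, the latter being positive; so that the decay estimate with factor `c θ^α`,
`α > γ`, fails for every constant `c`. -/
theorem result (d n N : ℕ) (hn : 0 < n) (hN : 2 ≤ N) (hNd : 2 * N ≤ d) (p : ℝ) (hp1 : 1 < p)
    (hp2 : p < 2) (hp : 4 ≤ N ∨ 8 < 3 * (p - 1) ^ 2 + (2 * N + 1) * (p - 1) + 2 * N) :
    ∃ (β γ : ℝ) (u : RE d → ℝ) (G : RE d → Mat n d),
      2 + (2 - p) / (N + 1) ≤ β ∧ β < 1 + 2 / p ∧ (4 ≤ N → β ≤ 2 + (2 - p) / (N - 3)) ∧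
      γ = (β - 1) * p / 2 ∧ p / 2 < γ ∧ γ < 1 ∧
      (∀ t : ℝ, 0 < t → ∀ x : RE d, u (t • x) = t ^ β * u x) ∧
      IsPHarmonic p Set.univ (fun x => EuclideanSpace.single (⟨0, hn⟩ : Fin n) (u x)) G ∧
      Continuous u ∧ Continuous G ∧
      (∀ z ∈ axis d (2 * N), ∀ U : Set (RE d), IsOpen U → z ∈ U →
        (¬ ∃ W : RE d → Mat n d, ContDiffOn ℝ 1 W U ∧
          W =ᵐ[volume.restrict U] fun x => Vop p (G x)) ∧
        (∀ α : ℝ, γ < α → ¬ ∃ (W : RE d → Mat n d) (C : ℝ),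
          (∀ x ∈ U, ∀ y ∈ U, ‖W x - W y‖ ≤ C * ‖x - y‖ ^ α) ∧
          W =ᵐ[volume.restrict U] fun x => Vop p (G x))) ∧
      (∀ z ∈ axis d (2 * N), ∀ r : ℝ, 0 < r →
        0 < osc (fun x => Vop p (G x)) (Metric.ball z r) ∧
        (∀ θ : ℝ, 0 < θ → θ ≤ 1 →
          osc (fun x => Vop p (G x)) (Metric.ball z (θ * r)) =
            θ ^ γ * osc (fun x => Vop p (G x)) (Metric.ball z r)) ∧
        (∀ α : ℝ, γ < α → ¬ ∃ c : ℝ, ∀ θ : ℝ, 0 < θ → θ ≤ 1 →
          osc (fun x => Vop p (G x)) (Metric.ball z (θ * r)) ≤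
            c * θ ^ α * osc (fun x => Vop p (G x)) (Metric.ball z r))) := by
  obtain ⟨m, rfl⟩ : ∃ m, d = N + N + m := ⟨d - 2 * N, by omega⟩
  obtain ⟨k2, a1, a2, a3, a4, a5, a6⟩ := Y310.SC.Par.exists_k2 hN hp1 hp2 hp
  obtain ⟨Pr⟩ := Y310.SC.Sol.exists_prof hN (μ := p - 1) (k2 := k2) (by linarith) (by linarith)
    a1 a2 a3 a4
  have hp0 : 0 < p := by linarith
  have hN' : (2 : ℝ) ≤ N := by exact_mod_cast hN
  have hβ2 := Pr.hk2
  have hβa : 2 + (2 - p) / ((N : ℝ) + 1) ≤ Pr.k := by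
    have := Pr.hka
    rwa [show 1 - (p - 1) = 2 - p by ring] at this
  have hβb : Pr.k < 1 + 2 / p := lt_of_le_of_lt Pr.hkb a5
  set γ : ℝ := (Pr.k - 1) * p / 2 with hγ
  have hγ1 : γ < 1 := by
    have h1 : Pr.k - 1 < 2 / p := by linarith
    rw [lt_div_iff₀ hp0] at h1
    rw [hγ]
    linarith
  have hγ0 : p / 2 < γ := by
    rw [hγ]
    nlinarith
  have hσ0 : 0 < γ := by linarith
  set G : RE (N + N + m) → Mat n (N + N + m) := Y310.SC.Cyl.Gc Pr m hn with hG
  have hGc : Continuous G := Y310.SC.Cyl.continuous_Gc Pr hn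
  have hVc : Continuous (fun x => Vop p (G x)) := (Y310.SC.Cyl.continuous_VV hp0).comp hGc
  obtain ⟨e, B, he, hB, hlow0⟩ := Y310.SC.Cyl.exists_dir Pr m hn hp0
  have hax : ∀ z ∈ axis (N + N + m) (2 * N), (Y131.PH.ee (N + N) m z).1 = 0 := by
    intro z hz
    ext i
    rw [Y131.PH.ee_fst]
    exact hz _ (by simp only [Fin.val_castAdd]; omega)
  have hlow : ∀ z ∈ axis (N + N + m) (2 * N), ∀ t : ℝ, 0 < t →
      B * t ^ γ ≤ ‖Vop p (G (z + t • e))‖ := fun z hz t ht => hlow0 z (hax z hz) t ht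
  have hzero : ∀ z ∈ axis (N + N + m) (2 * N), Vop p (G z) = 0 := by
    intro z hz
    rw [hG, Y310.SC.Cyl.Gc_axis Pr hn (hax z hz)]
    exact Y310.SC.Cyl.VV_zero p
  have hosc : ∀ z ∈ axis (N + N + m) (2 * N), ∀ r : ℝ, 0 < r →
      osc (fun x => Vop p (G x)) (Metric.ball z r) =
        r ^ γ * osc (fun x => Vop p (G x)) (Metric.ball 0 1) := by
    intro z hz r hr
    have h1 := Y131.PH.osc_translate (f := fun x => Vop p (G x)) (z := z)
      (fun x => by
        have : G (z + x) = G x :=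
          Y310.SC.Cyl.Gc_congr Pr hn (by rw [map_add, Prod.fst_add, hax z hz, zero_add])
        simp only [this]) r
    have h2 := Y310.SC.Osc.osc_scale (f := fun x => Vop p (G x)) (r := r) (c := r ^ γ) hr
      (Real.rpow_nonneg hr.le _) (fun x => Y310.SC.Cyl.VG_smul Pr hn p hr x)
    exact h1.trans h2
  have h00 : (0 : RE (N + N + m)) ∈ axis (N + N + m) (2 * N) := fun i _ => rfl
  have hpos1 : 0 < osc (fun x => Vop p (G x)) (Metric.ball 0 1) := by
    refine Y310.SC.Osc.osc_pos hVc (x := (1 / 2 : ℝ) • e) (y := 0) ?_ ?_ ?_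
    · rw [mem_ball_zero_iff, norm_smul, he]
      norm_num
    · simp
    · rw [hzero 0 h00]
      intro h
      have h1 := hlow 0 h00 (1 / 2) (by norm_num)
      rw [zero_add] at h1
      simp only [h, norm_zero] at h1
      have h2 : 0 < B * (1 / 2 : ℝ) ^ γ := mul_pos hB (Real.rpow_pos_of_pos (by norm_num) _)
      linarith
  refine ⟨Pr.k, γ, Y310.SC.Cyl.uc Pr m, G, hβa, hβb, fun h => Pr.hkb.trans (a6 h), rfl, hγ0, hγ1,
    fun t ht x => Y310.SC.Cyl.uc_smul Pr ht x, isPHarmonic Pr hn, Y310.SC.Cyl.continuous_uc Pr,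
    hGc, ?_, ?_⟩
  · intro z hz U hU hzU
    refine ⟨Y310.SC.Osc.not_C1 hB hγ1 hVc he (hzero z hz) (hlow z hz) hU hzU, ?_⟩
    rintro α hα ⟨W, C, hW, hWf⟩
    have hα0 : 0 < α := hσ0.trans hα
    have hWc : ContinuousOn W U := by
      intro x hx
      rw [ContinuousWithinAt, tendsto_iff_norm_sub_tendsto_zero]
      have h1 : Tendsto (fun y : RE (N + N + m) => C * ‖y - x‖ ^ α) (𝓝[U] x) (𝓝 0) := by
        have hc : Continuous (fun y : RE (N + N + m) => C * ‖y - x‖ ^ α) := by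
          have : Continuous (fun y : RE (N + N + m) => ‖y - x‖ ^ α) :=
            (continuous_id.sub continuous_const).norm.rpow_const (fun x => Or.inr hα0.le)
          fun_prop
        have h2 := hc.tendsto x
        simp only [sub_self, norm_zero, Real.zero_rpow hα0.ne', mul_zero] at h2
        exact h2.mono_left nhdsWithin_le_nhds
      refine squeeze_zero' (Eventually.of_forall fun y => norm_nonneg _) ?_ h1
      filter_upwards [self_mem_nhdsWithin] with y hy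
      exact hW y hy x hx
    exact Y310.SC.Osc.not_holder (C := C) hB hα hVc he (hzero z hz) (hlow z hz) hU hzU hWc hWf
      (fun x hx => hW x hx z hzU)
  · intro z hz r hr
    have hposr : 0 < osc (fun x => Vop p (G x)) (Metric.ball z r) := by
      rw [hosc z hz r hr]
      positivity
    have hθ : ∀ θ : ℝ, 0 < θ → θ ≤ 1 →
        osc (fun x => Vop p (G x)) (Metric.ball z (θ * r)) =
          θ ^ γ * osc (fun x => Vop p (G x)) (Metric.ball z r) := by
      intro θ h0 _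
      rw [hosc z hz r hr, hosc z hz (θ * r) (by positivity), Real.mul_rpow h0.le hr.le]
      ring
    refine ⟨hposr, hθ, ?_⟩
    rintro α hα ⟨c, hc⟩
    have h' : ∀ θ : ℝ, 0 < θ → θ ≤ 1 → 1 ≤ |c| * θ ^ (α - γ) := by
      intro θ h0 h1
      have h2 := hc θ h0 h1
      rw [hθ θ h0 h1] at h2
      have h3 : θ ^ γ ≤ c * θ ^ α := le_of_mul_le_mul_right h2 hposr
      have h4 : 0 < θ ^ γ := Real.rpow_pos_of_pos h0 _
      have e1 : θ ^ α = θ ^ (α - γ) * θ ^ γ := by
        rw [← Real.rpow_add h0]; congr 1; ring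
      have h5 : 1 * θ ^ γ ≤ (|c| * θ ^ (α - γ)) * θ ^ γ := by
        rw [one_mul]
        refine h3.trans ?_
        rw [e1, mul_assoc]
        exact mul_le_mul_of_nonneg_right (le_abs_self c) (by positivity)
      exact le_of_mul_le_mul_right h5 h4
    have hc : Continuous (fun t : ℝ => |c| * |t| ^ (α - γ)) := by
      have : Continuous (fun t : ℝ => |t| ^ (α - γ)) :=
        continuous_abs.rpow_const (fun x => Or.inr (by linarith))
      fun_prop
    have hev2 : ∀ᶠ t in 𝓝[>] (0 : ℝ), |c| * |t| ^ (α - γ) < 1 := by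
      have h2 := hc.tendsto 0
      have h3 : (α - γ) ≠ 0 := by linarith
      simp only [abs_zero, Real.zero_rpow h3, mul_zero] at h2
      exact (h2.mono_left nhdsWithin_le_nhds).eventually (gt_mem_nhds one_pos)
    have hev3 : ∀ᶠ t in 𝓝[>] (0 : ℝ), 0 < t := eventually_mem_nhdsWithin
    have hev4 : ∀ᶠ t in 𝓝[>] (0 : ℝ), t < 1 :=
      (gt_mem_nhds one_pos).filter_mono nhdsWithin_le_nhds
    obtain ⟨t, h1, h2, h3⟩ := (hev2.and (hev3.and hev4)).exists
    rw [abs_of_pos h2] at h1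
    exact absurd (h' t h2 h3.le) (not_le.2 h1)

end Pool.Agent.Results.MP_815c6c_an.ScalarCounterexample
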