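import Mathlib
import Pool.Agent.Y131.PH.Osc

set_option autoImplicit false

namespace Pool.Agent.Results.MP_815c6c_an.SharpHolderLoss

open MeasureTheory Set Filter Topology
open scoped ContDiff

/-- `ℝ^m` with the Euclidean norm. -/
abbrev RE (m : ℕ) := EuclideanSpace ℝ (Fin m)

/-- Real `n × d` matrices with the Frobenius norm. -/
abbrev Mat (n d : ℕ) := EuclideanSpace ℝ (Fin n × Fin d)

/-- `A(ξ) = |ξ|^(p-2) ξ`. -/
noncomputable def Aop (p : ℝ) {n d : ℕ} (ξ : Mat n d) : Mat n d := ‖ξ‖ ^ (p - 2) • ξ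

/-- `V(ξ) = |ξ|^((p-2)/2) ξ`. -/
noncomputable def Vop (p : ℝ) {n d : ℕ} (ξ : Mat n d) : Mat n d := ‖ξ‖ ^ ((p - 2) / 2) • ξ

/-- `h : Ω → ℝ^n` is `p`-harmonic on `Ω ⊆ ℝ^d` with weak gradient `G`: `h` and `G` are `L^p` on
compact subsets of `Ω`, `G` is the distributional gradient of `h` on `Ω`, and
`∫_Ω ⟨A(G), ∇φ⟩ = 0` for all test maps `φ ∈ C_c^∞(Ω; ℝ^n)`. -/
structure IsPHarmonic {d n : ℕ} (p : ℝ) (Ω : Set (RE d)) (h : RE d → RE n)
    (G : RE d → Mat n d) : Prop where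
  memLp_map : ∀ K : Set (RE d), IsCompact K → K ⊆ Ω →
    MemLp h (ENNReal.ofReal p) (volume.restrict K)
  memLp_grad : ∀ K : Set (RE d), IsCompact K → K ⊆ Ω →
    MemLp G (ENNReal.ofReal p) (volume.restrict K)
  weak_grad : ∀ φ : RE d → ℝ, ContDiff ℝ ∞ φ → HasCompactSupport φ → tsupport φ ⊆ Ω →
    ∀ (α : Fin n) (i : Fin d),
      ∫ x in Ω, h x α * fderiv ℝ φ x (EuclideanSpace.single i 1)
        = - ∫ x in Ω, G x (α, i) * φ x
  weak_eq : ∀ φ : RE d → RE n, ContDiff ℝ ∞ φ → HasCompactSupport φ → tsupport φ ⊆ Ω →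
    ∫ x in Ω, ∑ α : Fin n, ∑ i : Fin d,
      Aop p (G x) (α, i) * (fderiv ℝ φ x (EuclideanSpace.single i 1)) α = 0

/-- the mean oscillation `(⨍_S |f - ⟨f⟩_S|^2)^(1/2)`. -/
noncomputable def osc {d n : ℕ} (f : RE d → Mat n d) (S : Set (RE d)) : ℝ :=
  Real.sqrt (⨍ x in S, ‖f x - ⨍ y in S, f y‖ ^ 2)

/-- the subspace of `ℝ^d` where the first `m` coordinates vanish -/
def axis (d m : ℕ) : Set (RE d) := {z | ∀ i : Fin d, i.val < m → z i = 0}

theorem memLp_of_continuous {d : ℕ} {F : Type*} [NormedAddCommGroup F]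
    [SecondCountableTopologyEither (RE d) F] {f : RE d → F} (hf : Continuous f) {K : Set (RE d)}
    (hK : IsCompact K) (q : ENNReal) : MemLp f q (volume.restrict K) := by
  have hfin : IsFiniteMeasure (volume.restrict K) := ⟨by
    rw [Measure.restrict_apply_univ]; exact hK.measure_lt_top⟩
  obtain ⟨C, hC⟩ := hK.exists_bound_of_continuousOn hf.continuousOn
  refine MemLp.of_bound hf.aestronglyMeasurable C ?_
  exact (ae_restrict_iff' hK.measurableSet).2 (Eventually.of_forall hC)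

/-- The explicit map is `p`-harmonic. -/
theorem isPHarmonic {m k n : ℕ} {T : Fin n → Fin m → Fin m → ℝ} (hT : Y131.PH.IsEig T)
    (hd : 3 ≤ m) {p μ : ℝ} (hp1 : 1 < p) (hμ : 0 < μ)
    (hroot : 2 * (p - 1) * μ ^ 2 + (3 * p - 4 + m) * μ - (2 - p) = 0) :
    IsPHarmonic p Set.univ (Y131.PH.hm k T μ) (Y131.PH.Gm k T μ) := by
  have hd0 : 0 < m := by omega
  refine ⟨?_, ?_, ?_, ?_⟩
  · intro K hK _
    exact memLp_of_continuous (Y131.PH.continuous_hm T hμ) hK _
  · intro K hK _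
    exact memLp_of_continuous (Y131.PH.continuous_Gm hd0 T hμ) hK _
  · intro φ hφ hs _ α i
    simp only [Measure.restrict_univ]
    exact Y131.PH.weak_grad hd0 T hμ φ hφ hs α i
  · intro φ hφ hs _
    simp only [Measure.restrict_univ]
    exact Y131.PH.weak_eq hT hd hp1 hμ hroot φ hφ hs

/-- the root of the quadratic equation -/
theorem exists_root {m : ℕ} (hd : 3 ≤ m) {p : ℝ} (hp1 : 1 < p) (hp2 : p < 2) :
    ∃ μ : ℝ, 0 < μ ∧ (2 * μ + 1) * p / 2 < 1 ∧ μ * (m - 1) ≤ 2 - p ∧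
      2 * (p - 1) * μ ^ 2 + (3 * p - 4 + m) * μ - (2 - p) = 0 := by
  have hd' : (3 : ℝ) ≤ m := by exact_mod_cast hd
  set f : ℝ → ℝ := fun μ => 2 * (p - 1) * μ ^ 2 + (3 * p - 4 + m) * μ - (2 - p) with hf
  have hfc : Continuous f := by fun_prop
  set b : ℝ := (2 - p) / (2 * p) with hb
  have hp0 : 0 < p := by linarith
  have hb0 : 0 < b := by rw [hb]; apply div_pos <;> linarith
  have hf0 : f 0 < 0 := by simp only [hf]; linarith [mul_zero (2 * (p - 1))]
  have hfb : 0 < f b := by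
    have : f b = (2 - p) / (2 * p ^ 2) * ((m - 1) * p - 2) := by
      simp only [hf, hb]; field_simp; ring
    rw [this]
    apply mul_pos
    · apply div_pos <;> nlinarith
    · nlinarith
  obtain ⟨μ, hμ, hμ0⟩ := intermediate_value_Ioo hb0.le hfc.continuousOn ⟨hf0, hfb⟩
  refine ⟨μ, hμ.1, ?_, ?_, hμ0⟩
  · have h2 : μ < (2 - p) / (2 * p) := hμ.2
    rw [lt_div_iff₀ (by linarith)] at h2
    linarith
  · have h3 : 2 * (p - 1) * μ ^ 2 + (3 * p - 4 + m) * μ - (2 - p) = 0 := hμ0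
    have h4 : 0 ≤ 2 * (p - 1) * μ ^ 2 :=
      mul_nonneg (by linarith) (sq_nonneg _)
    have h5 : 0 ≤ 3 * (p - 1) * μ := mul_nonneg (by linarith) hμ.1.le
    nlinarith

/-- **Quantitative failure of the regularity of `V(∇h)` for the `p`-Laplace system, `1 < p < 2`.**
Let `3 ≤ m ≤ d`, and let `n ≥ m(m+1)/2 - 1`, or `m = 4` and `n ≥ 3`. (With `m = 3` and `m = 4`
this allows all `d ≥ 3, n ≥ 5` and all `d ≥ 4, n ≥ 3`.) Let `β > 2` be the root of
`β((p-1)β + m - p) = 2m` and `γ = (β-1)p/2`; then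
`p/2 < γ < 1` and `γ ≤ p/2 + p(2-p)/(m-1)`. There is a `p`-harmonic map `h : ℝ^d → ℝ^n` on all
of `ℝ^d` with continuous weak gradient `G`, such that near every point `z` of the
`(d-m)`-dimensional subspace `x_1 = ... = x_m = 0` the map `V(∇h)` has no `C^1` representative and
no Hölder continuous representative with an exponent `α > γ`, and for every ball `B` centred at
such a point the mean oscillation of `V(∇h)` over `θB` is exactly `θ^γ` times the one over `B`,
the latter being positive; so that the decay estimate with factor `c θ^α`, `α > γ`, fails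
for every constant `c`. -/
theorem result (d n m : ℕ) (hm : 3 ≤ m) (hmd : m ≤ d)
    (hmn : (m + 1).choose 2 ≤ n + 1 ∨ (m = 4 ∧ 3 ≤ n)) (p : ℝ) (hp1 : 1 < p) (hp2 : p < 2) :
    ∃ (β γ : ℝ) (h : RE d → RE n) (G : RE d → Mat n d),
      2 < β ∧ β * ((p - 1) * β + m - p) = 2 * m ∧ γ = (β - 1) * p / 2 ∧
      p / 2 < γ ∧ γ < 1 ∧ γ ≤ p / 2 + p * (2 - p) / (m - 1) ∧
      IsPHarmonic p Set.univ h G ∧ Continuous h ∧ Continuous G ∧
      (∀ z ∈ axis d m, ∀ U : Set (RE d), IsOpen U → z ∈ U →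
        (¬ ∃ W : RE d → Mat n d, ContDiffOn ℝ 1 W U ∧
          W =ᵐ[volume.restrict U] fun x => Vop p (G x)) ∧
        (∀ α : ℝ, γ < α → ¬ ∃ (W : RE d → Mat n d) (C : ℝ),
          (∀ x ∈ U, ∀ y ∈ U, ‖W x - W y‖ ≤ C * ‖x - y‖ ^ α) ∧
          W =ᵐ[volume.restrict U] fun x => Vop p (G x))) ∧
      (∀ z ∈ axis d m, ∀ r : ℝ, 0 < r →
        0 < osc (fun x => Vop p (G x)) (Metric.ball z r) ∧
        (∀ θ : ℝ, 0 < θ → θ ≤ 1 →
          osc (fun x => Vop p (G x)) (Metric.ball z (θ * r)) =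
            θ ^ γ * osc (fun x => Vop p (G x)) (Metric.ball z r)) ∧
        (∀ α : ℝ, γ < α → ¬ ∃ c : ℝ, ∀ θ : ℝ, 0 < θ → θ ≤ 1 →
          osc (fun x => Vop p (G x)) (Metric.ball z (θ * r)) ≤
            c * θ ^ α * osc (fun x => Vop p (G x)) (Metric.ball z r))) := by
  obtain ⟨k, rfl⟩ := Nat.exists_eq_add_of_le hmd
  have hm0 : 0 < m := by omega
  obtain ⟨T, hT⟩ : ∃ T : Fin n → Fin m → Fin m → ℝ, Y131.PH.IsEig T := by
    rcases hmn with h | ⟨rfl, h⟩
    · obtain ⟨T, hT⟩ := Y131.PH.exists_T hm0 h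
      exact ⟨T, Y131.PH.IsIso.isEig (T := T) hT hm0⟩
    · obtain ⟨t, rfl⟩ := Nat.exists_eq_add_of_le h
      exact ⟨Y131.PH.hopfT t, Y131.PH.hopf_isEig t⟩
  obtain ⟨μ, hμ, hσ1, hμm, hroot⟩ := exists_root hm hp1 hp2
  have hp0 : 0 < p := by linarith
  have hm' : (3 : ℝ) ≤ m := by exact_mod_cast hm
  set γ : ℝ := (2 * μ + 1) * p / 2 with hγ
  have hσ0 : 0 < γ := by positivity
  have hB : 0 < (Y131.PH.Kc m μ) ^ (p / 4) := Real.rpow_pos_of_pos (Y131.PH.Kc_pos hm hμ) _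
  have hnorm : ∀ x : RE (m + k), ‖Vop p (Y131.PH.Gm k T μ x)‖ = (Y131.PH.Kc m μ) ^ (p / 4) *
      ‖(Y131.PH.ee m k x).1‖ ^ γ := fun x => Y131.PH.norm_V_Gm hT hm hμ hp0 x
  have hodd : ∀ x : RE (m + k), Vop p (Y131.PH.Gm k T μ (-x)) =
      - Vop p (Y131.PH.Gm k T μ x) := by
    intro x
    unfold Vop
    rw [Y131.PH.Gm_neg, norm_neg, smul_neg]
  have hGc : Continuous (Y131.PH.Gm k T μ) := Y131.PH.continuous_Gm hm0 T hμ
  -- continuity of `V(G)`
  have hVc : Continuous (fun x => Vop p (Y131.PH.Gm k T μ x)) := by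
    rw [continuous_iff_continuousAt]
    intro x
    by_cases hx : Y131.PH.Gm k T μ x = 0
    · have h0 : Vop p (Y131.PH.Gm k T μ x) = 0 := by
        unfold Vop
        rw [hx, smul_zero]
      rw [ContinuousAt, h0, tendsto_zero_iff_norm_tendsto_zero]
      have hc : Continuous (fun y => (Y131.PH.Kc m μ) ^ (p / 4) *
          ‖(Y131.PH.ee m k y).1‖ ^ γ) := by
        have : Continuous (fun y : RE (m + k) => ‖(Y131.PH.ee m k y).1‖ ^ γ) :=
          Y131.PH.continuous_fst_ee.norm.rpow_const (fun x => Or.inr hσ0.le)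
        fun_prop
      have h1 := hc.tendsto x
      rw [← hnorm x, h0, norm_zero] at h1
      simpa only [hnorm] using h1
    · unfold Vop
      exact (hGc.norm.continuousAt.rpow_const (Or.inl (norm_ne_zero_iff.2 hx))).smul
        hGc.continuousAt
  have hax : ∀ z ∈ axis (m + k) m, (Y131.PH.ee m k z).1 = 0 := by
    intro z hz
    ext i
    rw [Y131.PH.ee_fst]
    exact hz _ (by simp)
  have hosc : ∀ z ∈ axis (m + k) m, ∀ r : ℝ, 0 < r →
      osc (fun x => Vop p (Y131.PH.Gm k T μ x)) (Metric.ball z r) =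
        r ^ γ * osc (fun x => Vop p (Y131.PH.Gm k T μ x)) (Metric.ball 0 1) := by
    intro z hz r hr
    have h1 := Y131.PH.osc_translate (f := fun x => Vop p (Y131.PH.Gm k T μ x)) (z := z)
      (fun x => by
        have : Y131.PH.Gm k T μ (z + x) = Y131.PH.Gm k T μ x :=
          Y131.PH.Gm_congr T μ (by rw [map_add, Prod.fst_add, hax z hz, zero_add])
        simp only [this]) r
    have h2 := Y131.PH.osc_ball hm0 hσ0 (fun x => Vop p (Y131.PH.Gm k T μ x)) hnorm hodd hr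
    exact h1.trans h2
  have hpos1 : 0 < osc (fun x => Vop p (Y131.PH.Gm k T μ x)) (Metric.ball 0 1) :=
    Y131.PH.osc_one_pos hm0 hB hσ0 (fun x => Vop p (Y131.PH.Gm k T μ x)) hnorm hodd
  refine ⟨2 * μ + 2, γ, Y131.PH.hm k T μ, Y131.PH.Gm k T μ, by linarith, ?_, by rw [hγ]; ring,
    ?_, hσ1, ?_, isPHarmonic hT hm hp1 hμ hroot, Y131.PH.continuous_hm T hμ, hGc, ?_, ?_⟩
  · linear_combination 2 * hroot
  · rw [hγ]
    nlinarith
  · have h1 : (0 : ℝ) < m - 1 := by linarith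
    have h2 : μ ≤ (2 - p) / (m - 1) := by
      rw [le_div_iff₀ h1]
      exact hμm
    have h3 : μ * p ≤ (2 - p) / (m - 1) * p := mul_le_mul_of_nonneg_right h2 hp0.le
    have h4 : p * (2 - p) / ((m : ℝ) - 1) = (2 - p) / (m - 1) * p := by ring
    rw [h4, hγ]
    linarith
  · intro z hz U hU hzU
    refine ⟨Y131.PH.not_C1 hm0 hB hσ0 hσ1 hVc hnorm hU hzU (hax z hz), ?_⟩
    rintro α hα ⟨W, C, hW, hWf⟩
    have hα0 : 0 < α := hσ0.trans hα
    have hWc : ContinuousOn W U := by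
      intro x hx
      rw [ContinuousWithinAt, tendsto_iff_norm_sub_tendsto_zero]
      have h1 : Tendsto (fun y : RE (m + k) => C * ‖y - x‖ ^ α) (𝓝[U] x) (𝓝 0) := by
        have hc : Continuous (fun y : RE (m + k) => C * ‖y - x‖ ^ α) := by
          have : Continuous (fun y : RE (m + k) => ‖y - x‖ ^ α) :=
            (continuous_id.sub continuous_const).norm.rpow_const (fun x => Or.inr hα0.le)
          fun_prop
        have h2 := hc.tendsto x
        simp only [sub_self, norm_zero, Real.zero_rpow hα0.ne', mul_zero] at h2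
        exact h2.mono_left nhdsWithin_le_nhds
      refine squeeze_zero' (Eventually.of_forall fun y => norm_nonneg _) ?_ h1
      filter_upwards [self_mem_nhdsWithin] with y hy
      exact hW y hy x hx
    exact Y131.PH.not_holder (C := C) hm0 hB hσ0 hα hVc hnorm hU hzU (hax z hz) hWc hWf
      (fun x hx => hW x hx z hzU)
  · intro z hz r hr
    have hposr : 0 < osc (fun x => Vop p (Y131.PH.Gm k T μ x)) (Metric.ball z r) := by
      rw [hosc z hz r hr]
      positivity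
    have hθ : ∀ θ : ℝ, 0 < θ → θ ≤ 1 →
        osc (fun x => Vop p (Y131.PH.Gm k T μ x)) (Metric.ball z (θ * r)) =
          θ ^ γ * osc (fun x => Vop p (Y131.PH.Gm k T μ x)) (Metric.ball z r) := by
      intro θ h0 _
      rw [hosc z hz r hr, hosc z hz (θ * r) (by positivity), Real.mul_rpow h0.le hr.le]
      ring
    refine ⟨hposr, hθ, ?_⟩
    rintro α hα ⟨c, hc⟩
    have h' : ∀ θ : ℝ, 0 < θ → θ ≤ 1 → 1 ≤ |c| * θ ^ (α - γ) := by
      intro θ h0 h1
      have h2 := hc θ h0 h1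
      rw [hθ θ h0 h1] at h2
      have h3 : θ ^ γ ≤ c * θ ^ α := le_of_mul_le_mul_right h2 hposr
      have h4 : 0 < θ ^ γ := Real.rpow_pos_of_pos h0 _
      have e1 : θ ^ α = θ ^ (α - γ) * θ ^ γ := by
        rw [← Real.rpow_add h0]; congr 1; ring
      have h5 : 1 * θ ^ γ ≤ (|c| * θ ^ (α - γ)) * θ ^ γ := by
        rw [one_mul]
        refine h3.trans ?_
        rw [e1, mul_assoc]
        exact mul_le_mul_of_nonneg_right (le_abs_self c) (by positivity)
      exact le_of_mul_le_mul_right h5 h4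
    have hc : Continuous (fun t : ℝ => |c| * |t| ^ (α - γ)) := by
      have : Continuous (fun t : ℝ => |t| ^ (α - γ)) :=
        continuous_abs.rpow_const (fun x => Or.inr (by linarith))
      fun_prop
    have hev2 : ∀ᶠ t in 𝓝[>] (0 : ℝ), |c| * |t| ^ (α - γ) < 1 := by
      have h2 := hc.tendsto 0
      have h3 : (α - γ) ≠ 0 := by linarith
      simp only [abs_zero, Real.zero_rpow h3, mul_zero] at h2
      exact (h2.mono_left nhdsWithin_le_nhds).eventually (gt_mem_nhds one_pos)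
    have hev3 : ∀ᶠ t in 𝓝[>] (0 : ℝ), 0 < t := eventually_mem_nhdsWithin
    have hev4 : ∀ᶠ t in 𝓝[>] (0 : ℝ), t < 1 :=
      (gt_mem_nhds one_pos).filter_mono nhdsWithin_le_nhds
    obtain ⟨t, h1, h2, h3⟩ := (hev2.and (hev3.and hev4)).exists
    rw [abs_of_pos h2] at h1
    exact absurd (h' t h2 h3.le) (not_le.2 h1)

end Pool.Agent.Results.MP_815c6c_an.SharpHolderLoss
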